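import Mathlib

/-!
# Shattering for sums of `k` dense sets of `F_2^n`

`main_ind`: if `A_1, …, A_k ⊆ F_2^n` are nonempty then `A_1 + ⋯ + A_k` shatters a set `F` of
coordinates with `(n - |F|) k log (1/β) ≤ ∑ log (2^n / |A_i|)`, where `2 β = 1 + β ^ k`, `0 < β < 1`.

Proof: induction on `n`; let `U_i`, `I_i` be the union and the intersection of the two sections of
`A_i` at the first coordinate.  Either use the `U_i` (the first coordinate is lost), or replace one
`U_j` by `I_j` (the first coordinate is free).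
-/

namespace Pool.Agent.H11.Shatter

open Finset

variable {n k : ℕ}

/-- The set of the sums `a_1 + ⋯ + a_k`, `a_i ∈ A_i`. -/
def SumSet (A : Fin k → Finset (Fin n → ZMod 2)) : Set (Fin n → ZMod 2) :=
  {x | ∃ a : Fin k → (Fin n → ZMod 2), (∀ i, a i ∈ A i) ∧ ∑ i, a i = x}

/-- `S` shatters the set of coordinates `F`. -/
def Shatters (S : Set (Fin n → ZMod 2)) (F : Finset (Fin n)) : Prop :=
  ∀ t : Fin n → ZMod 2, ∃ s ∈ S, ∀ i ∈ F, s i = t i

/-- Section at the first coordinate. -/
def sec (A : Finset (Fin (n + 1) → ZMod 2)) (c : ZMod 2) : Finset (Fin n → ZMod 2) :=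
  univ.filter (fun x => (Fin.cons c x : Fin (n + 1) → ZMod 2) ∈ A)

theorem mem_sec (A : Finset (Fin (n + 1) → ZMod 2)) (c : ZMod 2) (x : Fin n → ZMod 2) :
    x ∈ sec A c ↔ (Fin.cons c x : Fin (n + 1) → ZMod 2) ∈ A := by
  simp [sec]

theorem card_sec (A : Finset (Fin (n + 1) → ZMod 2)) :
    (sec A 0).card + (sec A 1).card = A.card := by
  classical
  have h : ∀ c : ZMod 2, (sec A c).card = (A.filter (fun x => x 0 = c)).card := by
    intro c
    apply Finset.card_bij (fun x _ => (Fin.cons c x : Fin (n + 1) → ZMod 2))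
    · intro x hx
      rw [mem_sec] at hx
      rw [Finset.mem_filter]
      exact ⟨hx, Fin.cons_zero _ _⟩
    · intro x _ y _ hxy
      exact Fin.cons_right_injective (α := fun _ => ZMod 2) c hxy
    · intro y hy
      rw [Finset.mem_filter] at hy
      refine ⟨Fin.tail y, ?_, ?_⟩
      · rw [mem_sec, ← hy.2, Fin.cons_self_tail]
        exact hy.1
      · rw [← hy.2, Fin.cons_self_tail]
  rw [h 0, h 1]
  have h2 : A.filter (fun x => x 0 = 1) = A.filter (fun x => ¬ (x 0 = 0)) := by
    apply Finset.filter_congr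
    intro x _
    have : ∀ z : ZMod 2, z = 1 ↔ ¬ (z = 0) := by decide
    exact this (x 0)
  rw [h2, Finset.card_filter_add_card_filter_not]

/-- Union of the sections. -/
def U (A : Finset (Fin (n + 1) → ZMod 2)) : Finset (Fin n → ZMod 2) := sec A 0 ∪ sec A 1

/-- Intersection of the sections. -/
def I (A : Finset (Fin (n + 1) → ZMod 2)) : Finset (Fin n → ZMod 2) := sec A 0 ∩ sec A 1

theorem card_U_add_I (A : Finset (Fin (n + 1) → ZMod 2)) : (U A).card + (I A).card = A.card := by
  rw [U, I, Finset.card_union_add_card_inter, card_sec]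

theorem mem_U {A : Finset (Fin (n + 1) → ZMod 2)} {x : Fin n → ZMod 2} (h : x ∈ U A) :
    ∃ c : ZMod 2, (Fin.cons c x : Fin (n + 1) → ZMod 2) ∈ A := by
  rw [U, Finset.mem_union, mem_sec, mem_sec] at h
  rcases h with h | h
  · exact ⟨0, h⟩
  · exact ⟨1, h⟩

theorem mem_I {A : Finset (Fin (n + 1) → ZMod 2)} {x : Fin n → ZMod 2} (h : x ∈ I A)
    (c : ZMod 2) : (Fin.cons c x : Fin (n + 1) → ZMod 2) ∈ A := by
  rw [I, Finset.mem_inter, mem_sec, mem_sec] at h
  have : c = 0 ∨ c = 1 := by revert c; decide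
  rcases this with rfl | rfl
  · exact h.1
  · exact h.2

theorem U_nonempty {A : Finset (Fin (n + 1) → ZMod 2)} (h : A.Nonempty) : (U A).Nonempty := by
  rw [← Finset.card_pos]
  have h1 := card_U_add_I A
  have h2 : (I A).card ≤ (U A).card := Finset.card_le_card
    (fun x hx => by
      rw [I, Finset.mem_inter] at hx
      rw [U, Finset.mem_union]
      exact Or.inl hx.1)
  have := h.card_pos
  omega

theorem I_le_U (A : Finset (Fin (n + 1) → ZMod 2)) : (I A).card ≤ (U A).card :=
  Finset.card_le_card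
    (fun x hx => by
      rw [I, Finset.mem_inter] at hx
      rw [U, Finset.mem_union]
      exact Or.inl hx.1)

theorem sum_cons (c : Fin k → ZMod 2) (a : Fin k → (Fin n → ZMod 2)) :
    ∑ i, (Fin.cons (c i) (a i) : Fin (n + 1) → ZMod 2) =
      (Fin.cons (∑ i, c i) (∑ i, a i) : Fin (n + 1) → ZMod 2) := by
  funext j
  rw [Finset.sum_apply]
  refine Fin.cases ?_ (fun j => ?_) j
  · simp
  · simp [Finset.sum_apply]

/-- Step 1: the first coordinate is lost. -/
theorem shatters_U (A : Fin k → Finset (Fin (n + 1) → ZMod 2)) (F : Finset (Fin n))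
    (h : Shatters (SumSet (fun i => U (A i))) F) :
    Shatters (SumSet A) (F.map (Fin.succEmb n)) := by
  intro t
  obtain ⟨s, ⟨a, ha, rfl⟩, hs⟩ := h (fun i => t i.succ)
  choose c hc using fun i => mem_U (ha i)
  refine ⟨_, ⟨fun i => Fin.cons (c i) (a i), hc, rfl⟩, ?_⟩
  intro j hj
  obtain ⟨i, hi, rfl⟩ := Finset.mem_map.1 hj
  rw [sum_cons]
  show (Fin.cons (∑ i, c i) (∑ i, a i) : Fin (n + 1) → ZMod 2) i.succ = t i.succ
  rw [Fin.cons_succ]
  exact hs i hi

/-- Step 2: the first coordinate is free. -/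
theorem shatters_I (A : Fin k → Finset (Fin (n + 1) → ZMod 2)) (j₀ : Fin k) (F : Finset (Fin n))
    (h : Shatters (SumSet (fun i => if i = j₀ then I (A i) else U (A i))) F) :
    Shatters (SumSet A) (insert 0 (F.map (Fin.succEmb n))) := by
  classical
  intro t
  obtain ⟨s, ⟨a, ha, rfl⟩, hs⟩ := h (fun i => t i.succ)
  have hU : ∀ i, i ≠ j₀ → ∃ c : ZMod 2, (Fin.cons c (a i) : Fin (n + 1) → ZMod 2) ∈ A i := by
    intro i hi
    have := ha i
    simp only [if_neg hi] at this
    exact mem_U this
  have hc : ∀ i, ∃ c : ZMod 2, i ≠ j₀ → (Fin.cons c (a i) : Fin (n + 1) → ZMod 2) ∈ A i := by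
    intro i
    by_cases hi : i = j₀
    · exact ⟨0, fun h => absurd hi h⟩
    · obtain ⟨c, hc⟩ := hU i hi
      exact ⟨c, fun _ => hc⟩
  choose c hc using hc
  have hI : ∀ z : ZMod 2, (Fin.cons z (a j₀) : Fin (n + 1) → ZMod 2) ∈ A j₀ := by
    intro z
    have := ha j₀
    simp only [if_true] at this
    exact mem_I this z
  -- choose the coordinate of the `j₀`-th summand
  let c' : Fin k → ZMod 2 := fun i => if i = j₀ then t 0 - ∑ l ∈ univ.erase j₀, c l else c i
  have hc' : ∀ i, (Fin.cons (c' i) (a i) : Fin (n + 1) → ZMod 2) ∈ A i := by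
    intro i
    by_cases hi : i = j₀
    · subst hi
      exact hI _
    · simp only [c', if_neg hi]
      exact hc i hi
  have hsum : ∑ i, c' i = t 0 := by
    rw [← Finset.add_sum_erase univ c' (Finset.mem_univ j₀)]
    have h1 : ∑ i ∈ univ.erase j₀, c' i = ∑ i ∈ univ.erase j₀, c i := by
      refine Finset.sum_congr rfl fun i hi => ?_
      simp only [c', if_neg (Finset.ne_of_mem_erase hi)]
    rw [h1]
    simp [c']
  refine ⟨_, ⟨fun i => Fin.cons (c' i) (a i), hc', rfl⟩, ?_⟩
  intro j hj
  rw [sum_cons, hsum]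
  rw [Finset.mem_insert] at hj
  rcases hj with rfl | hj
  · rw [Fin.cons_zero]
  · obtain ⟨i, hi, rfl⟩ := Finset.mem_map.1 hj
    show (Fin.cons (t 0) (∑ i, a i) : Fin (n + 1) → ZMod 2) i.succ = t i.succ
    rw [Fin.cons_succ]
    exact hs i hi

/-- Chord inequality: `((1 + r) / 2) ^ k ≤ r` for `β ^ k ≤ r ≤ 1`. -/
theorem chord {β : ℝ} (hβ0 : 0 < β) (hβ1 : β < 1) (hβ : 2 * β = 1 + β ^ k) {r : ℝ}
    (h1 : β ^ k ≤ r) (h2 : r ≤ 1) : ((1 + r) / 2) ^ k ≤ r := by
  have hconv : ConvexOn ℝ (Set.Ici (0 : ℝ)) (fun x : ℝ => x ^ k) := convexOn_pow k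
  set x := (1 + r) / 2 with hx
  have hxβ : β ≤ x := by rw [hx]; linarith
  have hx1 : x ≤ 1 := by rw [hx]; linarith
  -- x = a β + b, a + b = 1
  have hd : 0 < 1 - β := by linarith
  set a := (1 - x) / (1 - β) with ha
  have ha0 : 0 ≤ a := div_nonneg (by linarith) hd.le
  have ha1 : a ≤ 1 := by rw [ha, div_le_one hd]; linarith
  have hxa : x = a * β + (1 - a) * 1 := by
    rw [ha]; field_simp; ring
  have h3 := hconv.2 (show β ∈ Set.Ici (0 : ℝ) from hβ0.le)
    (Set.mem_Ici.2 (zero_le_one (α := ℝ))) ha0 (by linarith : (0 : ℝ) ≤ 1 - a)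
    (by ring)
  simp only [smul_eq_mul, one_pow] at h3
  rw [← hxa] at h3
  have h4 : a * β ^ k + (1 - a) * 1 = 2 * x - 1 := by
    have : β ^ k = 2 * β - 1 := by linarith
    rw [this]
    have h5 : a * (1 - β) = 1 - x := by rw [ha]; field_simp
    nlinarith
  rw [h4] at h3
  have h6 : 2 * x - 1 = r := by rw [hx]; ring
  linarith

theorem main_ind (hk : 0 < k) {β : ℝ} (hβ0 : 0 < β) (hβ1 : β < 1) (hβ : 2 * β = 1 + β ^ k)
    (n : ℕ) (A : Fin k → Finset (Fin n → ZMod 2)) (hA : ∀ i, (A i).Nonempty) :
    ∃ F : Finset (Fin n), Shatters (SumSet A) F ∧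
      ((n : ℝ) - F.card) * (k * Real.log (1 / β)) ≤
        ∑ i, ((n : ℝ) * Real.log 2 - Real.log (A i).card) := by
  classical
  induction n with
  | zero =>
    refine ⟨∅, ?_, ?_⟩
    · intro t
      choose a ha using hA
      exact ⟨_, ⟨a, ha, rfl⟩, fun i hi => absurd hi (Finset.notMem_empty i)⟩
    · have : ∀ i, (A i).card = 1 := by
        intro i
        apply le_antisymm
        · have := Finset.card_le_univ (A i)
          simpa using this
        · exact (hA i).card_pos
      simp [this]
  | succ n ih =>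
    -- the ratios
    set r : Fin k → ℝ := fun i => ((I (A i)).card : ℝ) / (U (A i)).card with hr
    have hU : ∀ i, (U (A i)).Nonempty := fun i => U_nonempty (hA i)
    have hUpos : ∀ i, (0 : ℝ) < (U (A i)).card := fun i => by exact_mod_cast (hU i).card_pos
    have hr0 : ∀ i, 0 ≤ r i := fun i => by rw [hr]; positivity
    have hr1 : ∀ i, r i ≤ 1 := fun i => by
      rw [hr]
      simp only
      rw [div_le_one (hUpos i)]
      exact_mod_cast I_le_U (A i)
    have hlogA : ∀ i, ((n + 1 : ℕ) : ℝ) * Real.log 2 - Real.log (A i).card =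
        ((n : ℝ) * Real.log 2 - Real.log (U (A i)).card) + Real.log (2 / (1 + r i)) := by
      intro i
      have hcard : ((A i).card : ℝ) = (U (A i)).card * (1 + r i) := by
        rw [hr]
        simp only
        rw [mul_add, mul_one, mul_div_cancel₀ _ (hUpos i).ne', ← card_U_add_I (A i)]
        push_cast
        ring
      have h1r : 0 < 1 + r i := by linarith [hr0 i]
      rw [hcard, Real.log_mul (hUpos i).ne' h1r.ne', Real.log_div (by norm_num) h1r.ne']
      push_cast
      ring
    have hsumA : ∑ i, (((n + 1 : ℕ) : ℝ) * Real.log 2 - Real.log (A i).card) =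
        ∑ i, ((n : ℝ) * Real.log 2 - Real.log (U (A i)).card) +
          ∑ i, Real.log (2 / (1 + r i)) := by
      rw [← Finset.sum_add_distrib]
      exact Finset.sum_congr rfl fun i _ => hlogA i
    have : Nonempty (Fin k) := ⟨⟨0, hk⟩⟩
    obtain ⟨j₀, -, hj₀⟩ := Finset.exists_max_image (univ : Finset (Fin k)) r
      Finset.univ_nonempty
    have hmono : ∀ i, Real.log (2 / (1 + r j₀)) ≤ Real.log (2 / (1 + r i)) := by
      intro i
      have h1 : 0 < 1 + r i := by linarith [hr0 i]
      have h2 : 0 < 1 + r j₀ := by linarith [hr0 j₀]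
      apply Real.log_le_log (by positivity)
      apply div_le_div_of_nonneg_left (by norm_num) h1
      linarith [hj₀ i (Finset.mem_univ i)]
    have hsumk : (k : ℝ) * Real.log (2 / (1 + r j₀)) ≤ ∑ i, Real.log (2 / (1 + r i)) := by
      have := Finset.sum_le_sum (fun i (_ : i ∈ (univ : Finset (Fin k))) => hmono i)
      simpa using this
    rcases le_total (r j₀) (β ^ k) with hle | hge
    · -- lose the first coordinate
      obtain ⟨F, hF, hFc⟩ := ih (fun i => U (A i)) hU
      refine ⟨F.map (Fin.succEmb n), shatters_U A F hF, ?_⟩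
      rw [Finset.card_map, hsumA]
      have h1 : k * Real.log (1 / β) ≤ (k : ℝ) * Real.log (2 / (1 + r j₀)) := by
        apply mul_le_mul_of_nonneg_left _ (Nat.cast_nonneg k)
        apply Real.log_le_log (by positivity)
        have h2 : 0 < 1 + r j₀ := by linarith [hr0 j₀]
        rw [div_le_div_iff₀ hβ0 h2]
        linarith
      push_cast
      nlinarith
    · -- the first coordinate is free
      have hrpos : 0 < r j₀ := lt_of_lt_of_le (pow_pos hβ0 k) hge
      have hIpos : (0 : ℝ) < (I (A j₀)).card := by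
        by_contra hcon
        have h0 : ((I (A j₀)).card : ℝ) = 0 := le_antisymm (not_lt.1 hcon) (Nat.cast_nonneg _)
        have : r j₀ = 0 := by rw [hr]; simp only; rw [h0, zero_div]
        linarith
      have hne : ∀ i, (if i = j₀ then I (A i) else U (A i)).Nonempty := by
        intro i
        by_cases hi : i = j₀
        · subst hi
          rw [if_pos rfl, ← Finset.card_pos]
          exact_mod_cast hIpos
        · rw [if_neg hi]
          exact hU i
      obtain ⟨F, hF, hFc⟩ := ih (fun i => if i = j₀ then I (A i) else U (A i)) hne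
      refine ⟨insert 0 (F.map (Fin.succEmb n)), shatters_I A j₀ F hF, ?_⟩
      have hnot : (0 : Fin (n + 1)) ∉ F.map (Fin.succEmb n) := by
        intro h
        obtain ⟨i, _, hi⟩ := Finset.mem_map.1 h
        exact Fin.succ_ne_zero i hi
      rw [Finset.card_insert_of_notMem hnot, Finset.card_map, hsumA]
      -- compare the sums
      have h1 : ∑ i, ((n : ℝ) * Real.log 2 -
          Real.log ((if i = j₀ then I (A i) else U (A i)).card : ℝ)) =
          ∑ i, ((n : ℝ) * Real.log 2 - Real.log (U (A i)).card) + Real.log (1 / r j₀) := by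
        have h2 : ∀ i, ((n : ℝ) * Real.log 2 -
            Real.log ((if i = j₀ then I (A i) else U (A i)).card : ℝ)) =
            ((n : ℝ) * Real.log 2 - Real.log (U (A i)).card) +
              (if i = j₀ then Real.log (1 / r j₀) else 0) := by
          intro i
          by_cases hi : i = j₀
          · subst hi
            rw [if_pos rfl, if_pos rfl]
            rw [hr]
            simp only
            rw [one_div_div, Real.log_div (hUpos i).ne' hIpos.ne']
            ring
          · rw [if_neg hi, if_neg hi, add_zero]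
        rw [Finset.sum_congr rfl fun i _ => h2 i, Finset.sum_add_distrib]
        simp
      rw [h1] at hFc
      have h3 : Real.log (1 / r j₀) ≤ (k : ℝ) * Real.log (2 / (1 + r j₀)) := by
        rw [← Real.log_pow]
        apply Real.log_le_log (by positivity)
        have hch := chord hβ0 hβ1 hβ hge (hr1 j₀)
        have h2 : 0 < (1 + r j₀) / 2 := by linarith [hr0 j₀]
        have h4 : (2 / (1 + r j₀)) ^ k = 1 / ((1 + r j₀) / 2) ^ k := by
          rw [← one_div_pow, one_div_div]
        rw [h4]
        exact one_div_le_one_div_of_le (pow_pos h2 k) hch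
      push_cast
      linarith

end Pool.Agent.H11.Shatter
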