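import Mathlib
import Pool.Agent.H11.Shatter

/-!
# Shattering in an arbitrary basis, and sharpness
-/

namespace Pool.Agent.H11.Shatter

open Finset

variable {n k : ℕ}

theorem basis_version (hk : 0 < k) {β : ℝ} (hβ0 : 0 < β) (hβ1 : β < 1) (hβ : 2 * β = 1 + β ^ k)
    (n : ℕ) (A : Fin k → Finset (Fin n → ZMod 2)) (hA : ∀ i, (A i).Nonempty)
    (b : Module.Basis (Fin n) (ZMod 2) (Fin n → ZMod 2)) :
    ∃ E : Finset (Fin n),
      (E.card : ℝ) * (k * Real.logb 2 (1 / β)) ≤ ∑ i, Real.logb 2 (2 ^ n / (A i).card) ∧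
      ∀ x : Fin n → ZMod 2, ∃ a : Fin k → (Fin n → ZMod 2), (∀ i, a i ∈ A i) ∧
        x - ∑ i, a i ∈ Submodule.span (ZMod 2) (b '' E) := by
  classical
  have hinj : Function.Injective b.equivFun := b.equivFun.injective
  obtain ⟨F, hF, hFc⟩ := main_ind hk hβ0 hβ1 hβ n
    (fun i => (A i).map ⟨b.equivFun, hinj⟩) (fun i => (hA i).map)
  refine ⟨Fᶜ, ?_, ?_⟩
  · have hcard : ((Fᶜ : Finset (Fin n)).card : ℝ) = (n : ℝ) - F.card := by
      rw [Finset.card_compl, Fintype.card_fin, Nat.cast_sub]
      simpa using Finset.card_le_univ F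
    have hlog2 : 0 < Real.log 2 := Real.log_pos (by norm_num)
    rw [hcard]
    have h1 : ∀ i, Real.logb 2 (2 ^ n / (A i).card) =
        ((n : ℝ) * Real.log 2 - Real.log (A i).card) / Real.log 2 := by
      intro i
      have : (0 : ℝ) < (A i).card := by exact_mod_cast (hA i).card_pos
      rw [Real.logb, Real.log_div (by positivity) this.ne', Real.log_pow]
    rw [Finset.sum_congr rfl fun i _ => h1 i, ← Finset.sum_div, Real.logb, le_div_iff₀ hlog2]
    simp only [Finset.card_map] at hFc
    calc ((n : ℝ) - F.card) * (k * (Real.log (1 / β) / Real.log 2)) * Real.log 2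
        = ((n : ℝ) - F.card) * (k * Real.log (1 / β)) := by field_simp
      _ ≤ _ := hFc
  · intro x
    obtain ⟨s, ⟨a', ha', rfl⟩, hs⟩ := hF (b.equivFun x)
    have h2 : ∀ i, ∃ y ∈ A i, b.equivFun y = a' i := by
      intro i
      obtain ⟨y, hy, hy'⟩ := Finset.mem_map.1 (ha' i)
      exact ⟨y, hy, hy'⟩
    choose a ha haa using h2
    refine ⟨a, ha, ?_⟩
    set w := x - ∑ i, a i with hw
    have hcoord : ∀ j ∈ F, b.equivFun w j = 0 := by
      intro j hj
      have h3 := hs j hj
      rw [hw, map_sub, map_sum]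
      simp only [haa]
      rw [Pi.sub_apply, h3, sub_self]
    rw [← b.sum_equivFun w]
    apply Submodule.sum_mem
    intro j _
    by_cases hj : j ∈ F
    · rw [hcoord j hj, zero_smul]
      exact Submodule.zero_mem _
    · apply Submodule.smul_mem
      apply Submodule.subset_span
      exact ⟨j, by simpa using hj, rfl⟩

/-! ### Lower bound for binomial coefficients -/

/-- `T j = C(n,j) m^j (n-m)^(n-j)` is increasing up to `m`. -/
theorem T_le {n m : ℕ} (hm : m ≤ n) (j : ℕ) (hj : j ≤ n) :
    n.choose j * m ^ j * (n - m) ^ (n - j) ≤ n.choose m * m ^ m * (n - m) ^ (n - m) := by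
  -- one step
  have step : ∀ i, i < n → (n.choose (i + 1) * m ^ (i + 1) * (n - m) ^ (n - (i + 1))) *
      ((i + 1) * (n - m)) = (n.choose i * m ^ i * (n - m) ^ (n - i)) * ((n - i) * m) := by
    intro i hi
    have h1 : n.choose (i + 1) * (i + 1) = n.choose i * (n - i) := Nat.choose_succ_right_eq n i
    have h2 : n - i = (n - (i + 1)) + 1 := by omega
    calc (n.choose (i + 1) * m ^ (i + 1) * (n - m) ^ (n - (i + 1))) * ((i + 1) * (n - m))
        = (n.choose (i + 1) * (i + 1)) * m ^ (i + 1) * ((n - m) ^ (n - (i + 1)) * (n - m)) := by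
          ring
      _ = (n.choose i * (n - i)) * m ^ (i + 1) * (n - m) ^ (n - (i + 1) + 1) := by
          rw [h1, pow_succ (n - m)]
      _ = (n.choose i * m ^ i * (n - m) ^ (n - i)) * ((n - i) * m) := by
          rw [← h2, pow_succ m]; ring
  rcases le_total j m with hjm | hjm
  · -- increasing part
    induction hjm using Nat.decreasingInduction with
    | self => exact le_rfl
    | of_succ i hi ih =>
      have hi' : i < m := hi
      refine le_trans ?_ (ih (by omega))
      have hs := step i (by omega)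
      have h3 : (i + 1) * (n - m) ≤ (n - i) * m := by
        have e1 : n - m + m = n := Nat.sub_add_cancel hm
        have e2 : n - i + i = n := Nat.sub_add_cancel (by omega)
        zify [hm, (by omega : i ≤ n)]
        nlinarith [(by exact_mod_cast hi : (i : ℤ) + 1 ≤ m), (by exact_mod_cast hm : (m : ℤ) ≤ n)]
      by_contra hcon
      rw [not_le] at hcon
      have h4 : 0 < (n - i) * m := Nat.mul_pos (by omega) (by omega)
      have h5 := Nat.mul_lt_mul_of_lt_of_le hcon h3 h4
      omega
  · induction j, hjm using Nat.le_induction with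
    | base => exact le_rfl
    | succ i hi ih =>
      refine le_trans ?_ (ih (by omega))
      have hs := step i (by omega)
      have h3 : (n - i) * m ≤ (i + 1) * (n - m) := by
        zify [hm, (by omega : i ≤ n)]
        nlinarith [(by exact_mod_cast hi : (m : ℤ) ≤ i), (by exact_mod_cast hm : (m : ℤ) ≤ n)]
      by_contra hcon
      rw [not_le] at hcon
      have h4 : 0 < (i + 1) * (n - m) := Nat.mul_pos (by omega) (by omega)
      have h5 := Nat.mul_lt_mul_of_lt_of_le hcon h3 h4
      omega

theorem pow_le_choose {n m : ℕ} (hm : m ≤ n) :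
    n ^ n ≤ (n + 1) * (n.choose m * m ^ m * (n - m) ^ (n - m)) := by
  have h1 : (m + (n - m)) ^ n = ∑ j ∈ range (n + 1), m ^ j * (n - m) ^ (n - j) * n.choose j :=
    add_pow m (n - m) n
  rw [Nat.add_sub_cancel' hm] at h1
  rw [h1]
  calc ∑ j ∈ range (n + 1), m ^ j * (n - m) ^ (n - j) * n.choose j
      ≤ ∑ _j ∈ range (n + 1), n.choose m * m ^ m * (n - m) ^ (n - m) := by
        apply Finset.sum_le_sum
        intro j hj
        rw [Finset.mem_range] at hj
        have := T_le hm j (by omega)
        linarith [this, (by ring : m ^ j * (n - m) ^ (n - j) * n.choose j =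
          n.choose j * m ^ j * (n - m) ^ (n - j))]
    _ = _ := by simp

end Pool.Agent.H11.Shatter
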