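import Mathlib
import Pool.Agent.H11.ShatterB

/-!
# Sharpness: Hamming balls
-/

namespace Pool.Agent.H11.Shatter

open Finset Filter Topology

variable {n k : ℕ}

/-- Hamming weight. -/
def wt (x : Fin n → ZMod 2) : ℕ := (univ.filter (fun i => x i ≠ 0)).card

/-- Hamming ball. -/
def ball (n m : ℕ) : Finset (Fin n → ZMod 2) := univ.filter (fun x => wt x ≤ m)

theorem mem_ball {m : ℕ} {x : Fin n → ZMod 2} : x ∈ ball n m ↔ wt x ≤ m := by simp [ball]

theorem ball_nonempty (n m : ℕ) : (ball n m).Nonempty := by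
  refine ⟨0, ?_⟩
  rw [mem_ball]
  simp [wt]

theorem choose_le_ball (n m : ℕ) : n.choose m ≤ (ball n m).card := by
  classical
  have h1 : (Finset.powersetCard m (univ : Finset (Fin n))).card = n.choose m := by
    rw [Finset.card_powersetCard]
    simp
  rw [← h1]
  apply Finset.card_le_card_of_injOn
    (fun s : Finset (Fin n) => (fun i => if i ∈ s then (1 : ZMod 2) else 0))
  · intro s hs
    rw [Finset.mem_coe, Finset.mem_powersetCard] at hs
    rw [Finset.mem_coe, mem_ball]
    unfold wt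
    have : (univ.filter (fun i => (if i ∈ s then (1 : ZMod 2) else 0) ≠ 0)) = s := by
      ext i
      simp
    rw [this, hs.2]
  · intro s _ t _ hst
    ext i
    have := congrFun hst i
    simp only at this
    by_cases h1 : i ∈ s <;> by_cases h2 : i ∈ t <;> simp_all

theorem wt_sum_le (a : Fin k → (Fin n → ZMod 2)) (m : ℕ) (h : ∀ i, wt (a i) ≤ m) :
    wt (∑ i, a i) ≤ k * m := by
  classical
  have hsub : univ.filter (fun j => (∑ i, a i) j ≠ 0) ⊆
      (univ : Finset (Fin k)).biUnion (fun i => univ.filter (fun j => a i j ≠ 0)) := by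
    intro j hj
    rw [Finset.mem_filter] at hj
    by_contra hcon
    apply hj.2
    rw [Finset.sum_apply]
    apply Finset.sum_eq_zero
    intro i _
    by_contra hne
    apply hcon
    rw [Finset.mem_biUnion]
    exact ⟨i, Finset.mem_univ i, by rw [Finset.mem_filter]; exact ⟨Finset.mem_univ j, hne⟩⟩
  calc wt (∑ i, a i) ≤ ((univ : Finset (Fin k)).biUnion
        (fun i => univ.filter (fun j => a i j ≠ 0))).card := Finset.card_le_card hsub
    _ ≤ ∑ i : Fin k, (univ.filter (fun j => a i j ≠ 0)).card := Finset.card_biUnion_le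
    _ ≤ ∑ _i : Fin k, m := Finset.sum_le_sum fun i _ => h i
    _ = k * m := by simp

theorem ball_cover (n m : ℕ) (E : Finset (Fin n))
    (h : ∀ x : Fin n → ZMod 2, ∃ a : Fin k → (Fin n → ZMod 2), (∀ i, a i ∈ ball n m) ∧
      x - ∑ i, a i ∈ Submodule.span (ZMod 2) ((Pi.basisFun (ZMod 2) (Fin n)) '' E)) :
    n ≤ k * m + E.card := by
  classical
  obtain ⟨a, ha, hspan⟩ := h 1
  -- elements of the span vanish off `E`
  have hv : ∀ y ∈ Submodule.span (ZMod 2) ((Pi.basisFun (ZMod 2) (Fin n)) '' (E : Set (Fin n))),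
      ∀ j, j ∉ E → y j = 0 := by
    intro y hy j hj
    induction hy using Submodule.span_induction with
    | mem z hz =>
      obtain ⟨i, hi, rfl⟩ := hz
      rw [Pi.basisFun_apply, Pi.single_apply, if_neg]
      rintro rfl
      exact hj hi
    | zero => rfl
    | add y z _ _ hy hz => rw [Pi.add_apply, hy, hz, add_zero]
    | smul c y _ hy => rw [Pi.smul_apply, hy, smul_zero]
  have h1 : Eᶜ ⊆ univ.filter (fun j => (∑ i, a i) j ≠ 0) := by
    intro j hj
    rw [Finset.mem_compl] at hj
    rw [Finset.mem_filter]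
    refine ⟨Finset.mem_univ j, ?_⟩
    have h2 := hv _ hspan j hj
    rw [Pi.sub_apply, Pi.one_apply, sub_eq_zero] at h2
    rw [← h2]
    exact one_ne_zero
  have h3 := Finset.card_le_card h1
  rw [Finset.card_compl, Fintype.card_fin] at h3
  have h4 := wt_sum_le a m (fun i => mem_ball.1 (ha i))
  unfold wt at h4
  omega

/-- Entropy lower bound for binomial coefficients. -/
theorem log_choose_ge {n m : ℕ} (hm0 : 0 < m) (hm : m < n) :
    (n : ℝ) * Real.binEntropy ((m : ℝ) / n) - Real.log (n + 1) ≤ Real.log (n.choose m) := by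
  have h := pow_le_choose hm.le
  have hn0 : (0 : ℝ) < n := by exact_mod_cast (by omega : 0 < n)
  have hm0' : (0 : ℝ) < m := by exact_mod_cast hm0
  have hnm0 : (0 : ℝ) < (n : ℝ) - m := by
    have : (m : ℝ) < n := by exact_mod_cast hm
    linarith
  have hC : (0 : ℝ) < (n.choose m : ℝ) := by exact_mod_cast Nat.choose_pos hm.le
  have h' : (n : ℝ) ^ n ≤ ((n : ℝ) + 1) * (n.choose m * (m : ℝ) ^ m * ((n : ℝ) - m) ^ (n - m)) := by
    have : ((n - m : ℕ) : ℝ) = (n : ℝ) - m := Nat.cast_sub hm.le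
    rw [← this]
    exact_mod_cast h
  have hlog := Real.log_le_log (by positivity) h'
  rw [Real.log_mul (by positivity) (by positivity), Real.log_mul (by positivity) (by positivity),
    Real.log_mul hC.ne' (by positivity), Real.log_pow, Real.log_pow, Real.log_pow,
    Nat.cast_sub hm.le] at hlog
  have hent : (n : ℝ) * Real.binEntropy ((m : ℝ) / n) =
      n * Real.log n - m * Real.log m - ((n : ℝ) - m) * Real.log ((n : ℝ) - m) := by
    rw [Real.binEntropy]
    have e1 : (1 : ℝ) - (m : ℝ) / n = ((n : ℝ) - m) / n := by field_simp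
    rw [e1, inv_div, inv_div, Real.log_div hn0.ne' hm0'.ne', Real.log_div hn0.ne' hnm0.ne']
    field_simp
    ring
  rw [hent]
  linarith

theorem beta_facts (hk : 2 ≤ k) {β : ℝ} (hβ0 : 0 < β) (hβ1 : β < 1) (hβ : 2 * β = 1 + β ^ k) :
    (k : ℝ) * (β ^ (k - 1) / 2) < 1 := by
  have hgeo : (∑ i ∈ range k, β ^ i) * (β - 1) = β ^ k - 1 := geom_sum_mul β k
  have hsum : ∑ i ∈ range k, β ^ i = 2 := by
    have h1 : (∑ i ∈ range k, β ^ i - 2) * (β - 1) = 0 := by
      rw [sub_mul, hgeo]
      linarith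
    rcases mul_eq_zero.1 h1 with h | h
    · linarith
    · linarith
  have hlt : ∑ _i ∈ range k, β ^ (k - 1) < ∑ i ∈ range k, β ^ i := by
    apply Finset.sum_lt_sum
    · intro i hi
      rw [Finset.mem_range] at hi
      exact pow_le_pow_of_le_one hβ0.le hβ1.le (by omega)
    · refine ⟨0, Finset.mem_range.2 (by omega), ?_⟩
      rw [pow_zero]
      exact pow_lt_one₀ hβ0.le hβ1 (by omega)
  rw [Finset.sum_const, Finset.card_range, nsmul_eq_mul, hsum] at hlt
  linarith

theorem entropy_eq (hk : 2 ≤ k) {β : ℝ} (hβ0 : 0 < β) (hβ : 2 * β = 1 + β ^ k) :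
    Real.binEntropy (β ^ (k - 1) / 2) =
      Real.log 2 - Real.log (1 / β) * (1 - k * (β ^ (k - 1) / 2)) := by
  have hpow : β ^ k = β * β ^ (k - 1) := by
    rw [← pow_succ']
    congr 1
    omega
  have e1 : (1 : ℝ) - β ^ (k - 1) / 2 = 1 / (2 * β) := by
    field_simp
    nlinarith
  have hp : 0 < β ^ (k - 1) := pow_pos hβ0 _
  rw [Real.binEntropy, e1]
  have l1 : Real.log (β ^ (k - 1) / 2)⁻¹ = Real.log 2 - ((k : ℝ) - 1) * Real.log β := by
    rw [Real.log_inv, Real.log_div hp.ne' (by norm_num), Real.log_pow, Nat.cast_sub (by omega)]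
    push_cast
    ring
  have l2 : Real.log (1 / (2 * β))⁻¹ = Real.log 2 + Real.log β := by
    rw [one_div, inv_inv, Real.log_mul (by norm_num) hβ0.ne']
  have l3 : Real.log (1 / β) = - Real.log β := by rw [one_div, Real.log_inv]
  rw [l1, l2, l3]
  have e2 : 1 / (2 * β) = 1 - β ^ (k - 1) / 2 := e1.symm
  rw [e2]
  ring

theorem sharp (hk : 3 ≤ k) {β : ℝ} (hβ0 : 0 < β) (hβ1 : β < 1) (hβ : 2 * β = 1 + β ^ k)
    (C : ℝ) (hC : C < 1 / Real.logb 2 (1 / β)) :
    ∃ (n : ℕ) (A : Finset (Fin n → ZMod 2)), A.Nonempty ∧ ∀ E : Finset (Fin n),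
      (E.card : ℝ) ≤ C * Real.logb 2 (2 ^ n / A.card) →
      ∃ x : Fin n → ZMod 2, ∀ a : Fin k → (Fin n → ZMod 2), (∀ i, a i ∈ A) →
        x - ∑ i, a i ∉ Submodule.span (ZMod 2) ((Pi.basisFun (ZMod 2) (Fin n)) '' E) := by
  classical
  -- reduce to positive `C`
  have hlog2 : 0 < Real.log 2 := Real.log_pos (by norm_num)
  have hΛ : 0 < Real.log (1 / β) := Real.log_pos (by rw [lt_div_iff₀ hβ0]; linarith)
  have hlogb : 0 < Real.logb 2 (1 / β) := div_pos hΛ hlog2
  set C' : ℝ := max C (1 / (2 * Real.logb 2 (1 / β))) with hC'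
  have hC'0 : 0 < C' := lt_of_lt_of_le (by positivity) (le_max_right _ _)
  have hC'1 : C' < 1 / Real.logb 2 (1 / β) := by
    apply max_lt hC
    apply one_div_lt_one_div_of_lt hlogb
    linarith
  set q : ℝ := β ^ (k - 1) / 2 with hq
  have hq0 : 0 < q := by positivity
  have hkq : (k : ℝ) * q < 1 := beta_facts (by omega) hβ0 hβ1 hβ
  have hk1 : (1 : ℝ) ≤ k := by exact_mod_cast (by omega : 1 ≤ k)
  have hq1 : q < 1 := by nlinarith
  by_contra hcon
  push Not at hcon
  -- apply to the balls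
  have key : ∀ n : ℕ, 0 < n → 0 < ⌊q * n⌋₊ →
      1 - (k : ℝ) * q ≤ C' / Real.log 2 * (Real.log 2 -
        Real.binEntropy (((⌊q * n⌋₊ : ℕ) : ℝ) / n) + Real.log ((n : ℝ) + 1) / n) := by
    intro n hn hm0
    set m := ⌊q * (n : ℝ)⌋₊ with hm
    have hn0 : (0 : ℝ) < n := by exact_mod_cast hn
    have hmq : (m : ℝ) ≤ q * n := Nat.floor_le (by positivity)
    have hmn : m < n := by
      have : (m : ℝ) < n := by nlinarith
      exact_mod_cast this
    obtain ⟨E, hE1, hE2⟩ := hcon n (ball n m) (ball_nonempty n m)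
    have h1 : n ≤ k * m + E.card := by
      apply ball_cover n m E
      intro x
      obtain ⟨a, ha, ha'⟩ := hE2 x
      exact ⟨a, ha, ha'⟩
    have h1' : (n : ℝ) ≤ k * m + E.card := by exact_mod_cast h1
    have hcard : (0 : ℝ) < (ball n m).card := by exact_mod_cast (ball_nonempty n m).card_pos
    have hchoose : (n.choose m : ℝ) ≤ (ball n m).card := by exact_mod_cast choose_le_ball n m
    have hcpos : (0 : ℝ) < (n.choose m : ℝ) := by exact_mod_cast Nat.choose_pos hmn.le
    have hlb : Real.logb 2 (2 ^ n / (ball n m).card) =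
        ((n : ℝ) * Real.log 2 - Real.log (ball n m).card) / Real.log 2 := by
      rw [Real.logb, Real.log_div (by positivity) hcard.ne', Real.log_pow]
    have hl0 : 0 ≤ Real.logb 2 (2 ^ n / (ball n m).card) := by
      apply Real.logb_nonneg (by norm_num)
      rw [le_div_iff₀ hcard, one_mul]
      have : (ball n m).card ≤ Fintype.card (Fin n → ZMod 2) := Finset.card_le_univ _
      simp only [Fintype.card_fun, ZMod.card, Fintype.card_fin] at this
      exact_mod_cast this
    have h2 : (E.card : ℝ) ≤ C' * (((n : ℝ) * Real.log 2 - Real.log (n.choose m)) / Real.log 2) := by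
      calc (E.card : ℝ) ≤ C * Real.logb 2 (2 ^ n / (ball n m).card) := hE1
        _ ≤ C' * Real.logb 2 (2 ^ n / (ball n m).card) :=
            mul_le_mul_of_nonneg_right (le_max_left _ _) hl0
        _ ≤ _ := by
            rw [hlb]
            apply mul_le_mul_of_nonneg_left _ hC'0.le
            apply div_le_div_of_nonneg_right _ hlog2.le
            have := Real.log_le_log hcpos hchoose
            linarith
    have h3 := log_choose_ge hm0 hmn
    have h4 : (n : ℝ) * (1 - k * q) ≤ C' / Real.log 2 * ((n : ℝ) * (Real.log 2 -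
        Real.binEntropy ((m : ℝ) / n) + Real.log ((n : ℝ) + 1) / n)) := by
      have e1 : (n : ℝ) * (Real.log 2 - Real.binEntropy ((m : ℝ) / n) +
          Real.log ((n : ℝ) + 1) / n) = (n : ℝ) * Real.log 2 -
            (n * Real.binEntropy ((m : ℝ) / n) - Real.log ((n : ℝ) + 1)) := by
        field_simp
        ring
      rw [e1]
      have h5 : C' * (((n : ℝ) * Real.log 2 - Real.log (n.choose m)) / Real.log 2) ≤
          C' / Real.log 2 * ((n : ℝ) * Real.log 2 -
            (n * Real.binEntropy ((m : ℝ) / n) - Real.log ((n : ℝ) + 1))) := by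
        rw [mul_div_assoc', mul_div_right_comm]
        apply mul_le_mul_of_nonneg_left _ (by positivity)
        linarith
      have h6 : (n : ℝ) * (1 - k * q) ≤ E.card := by
        have : (k : ℝ) * m ≤ k * (q * n) := by gcongr
        nlinarith
      linarith
    have h7 : (n : ℝ) * (1 - k * q) ≤ n * (C' / Real.log 2 * (Real.log 2 -
        Real.binEntropy ((m : ℝ) / n) + Real.log ((n : ℝ) + 1) / n)) := by
      refine h4.trans (le_of_eq ?_)
      ring
    exact le_of_mul_le_mul_left h7 hn0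
  -- limit
  have hlim1 : Tendsto (fun n : ℕ => ((⌊q * (n : ℝ)⌋₊ : ℕ) : ℝ) / n) atTop (𝓝 q) :=
    (tendsto_nat_floor_mul_div_atTop hq0.le).comp tendsto_natCast_atTop_atTop
  have hlim2 : Tendsto (fun n : ℕ => Real.log ((n : ℝ) + 1) / n) atTop (𝓝 0) := by
    have h := (Real.tendsto_pow_log_div_mul_add_atTop 1 (-1) 1 one_ne_zero).comp
      ((tendsto_atTop_add_const_right atTop (1 : ℝ) tendsto_natCast_atTop_atTop) :
        Tendsto (fun n : ℕ => (n : ℝ) + 1) atTop atTop)
    refine h.congr fun n => ?_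
    simp
  have hlim3 : Tendsto (fun n : ℕ => C' / Real.log 2 * (Real.log 2 -
      Real.binEntropy (((⌊q * (n : ℝ)⌋₊ : ℕ) : ℝ) / n) + Real.log ((n : ℝ) + 1) / n)) atTop
      (𝓝 (C' / Real.log 2 * (Real.log 2 - Real.binEntropy q + 0))) := by
    apply Tendsto.const_mul
    apply Tendsto.add _ hlim2
    apply Tendsto.sub tendsto_const_nhds
    exact (Real.binEntropy_continuous.tendsto q).comp hlim1
  have hev : ∀ᶠ n : ℕ in atTop, 0 < n ∧ 0 < ⌊q * (n : ℝ)⌋₊ := by
    have h1 : Tendsto (fun n : ℕ => q * (n : ℝ)) atTop atTop :=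
      Tendsto.const_mul_atTop hq0 tendsto_natCast_atTop_atTop
    filter_upwards [eventually_gt_atTop 0, h1.eventually_ge_atTop 1] with n hn hn1
    exact ⟨hn, Nat.floor_pos.2 hn1⟩
  have hfin := le_of_tendsto_of_tendsto tendsto_const_nhds hlim3
    (hev.mono fun n hn => key n hn.1 hn.2)
  rw [add_zero, entropy_eq (by omega) hβ0 hβ] at hfin
  have hfin' : 1 - (k : ℝ) * q ≤ (C' * Real.logb 2 (1 / β)) * (1 - k * q) := by
    refine hfin.trans (le_of_eq ?_)
    rw [Real.logb, hq]
    field_simp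
    ring
  have hlt : C' * Real.logb 2 (1 / β) < 1 := by
    rw [lt_div_iff₀ hlogb] at hC'1
    exact hC'1
  have hpos : 0 < 1 - (k : ℝ) * q := by linarith
  nlinarith

end Pool.Agent.H11.Shatter
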